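import Pool.Agent.Helper63.P705.NR.Goals
import Pool.Agent.Helper88.NO.D12
import Pool.Agent.Helper89.Pq.MOM

/-!
# MP_705522_gt, packet NR-GD: the density of the law `nu θ`
-/

set_option autoImplicit false

noncomputable section

namespace Pool.Agent.Helper19.NR

open MeasureTheory Set Filter Topology
open Pool.Agent.Helper28.NO (mu muZ)
open Pool.Agent.Helper7.Proj (Zd)
open Pool.Agent.Helper88.NO
open Pool.Agent.Helper53.PT
open Pool.Agent.Helper63.P705.NR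

theorem two_lt {θ : ℝ} (h0 : 0 < θ) (h1 : θ < 1 / 2) : 2 < 1 / θ := by
  rw [lt_div_iff₀ h0]
  linarith

theorem gA {θ : ℝ} (h0 : 0 < θ) : 0 < Real.Gamma (1 + θ) := Real.Gamma_pos_of_pos (by linarith)

theorem gB {θ : ℝ} (h1 : θ < 1 / 2) : 0 < Real.Gamma (1 - θ) := Real.Gamma_pos_of_pos (by linarith)

theorem sg_pos {θ : ℝ} (h0 : 0 < θ) (h1 : θ < 1 / 2) : 0 < sg θ :=
  Real.sqrt_pos.2 (mul_pos (gA h0) (gB h1))

theorem kap_pos {θ : ℝ} (h0 : 0 < θ) (h1 : θ < 1 / 2) : 0 < kap θ := by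
  have := gA h0
  have := gB h1
  unfold kap
  positivity

/-- the scaling factor -/
def sc (θ : ℝ) : ℝ := 1 / θ * Zd (1 / θ) / sg θ

theorem sc_eq {θ : ℝ} (h0 : 0 < θ) (h1 : θ < 1 / 2) : sc θ = Real.Gamma (1 - θ) / sg θ := by
  unfold sc
  rw [Pool.Agent.Helper89.Pq.Zd_gamma θ h0 h1]

theorem sc_pos {θ : ℝ} (h0 : 0 < θ) (h1 : θ < 1 / 2) : 0 < sc θ := by
  rw [sc_eq h0 h1]
  exact div_pos (gB h1) (sg_pos h0 h1)

theorem sc_inv {θ : ℝ} (h0 : 0 < θ) (h1 : θ < 1 / 2) :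
    (sc θ)⁻¹ = (Real.Gamma (1 + θ) / Real.Gamma (1 - θ)) ^ (1 / 2 : ℝ) := by
  have hA := gA h0
  have hB := gB h1
  rw [sc_eq h0 h1, inv_div, ← Real.sqrt_eq_rpow]
  unfold sg
  have e : Real.Gamma (1 + θ) / Real.Gamma (1 - θ) =
      Real.Gamma (1 + θ) * Real.Gamma (1 - θ) / Real.Gamma (1 - θ) ^ 2 := by
    field_simp
  rw [e, Real.sqrt_div (by positivity), Real.sqrt_sq hB.le]

theorem sc_inv_rpow {θ : ℝ} (h0 : 0 < θ) (h1 : θ < 1 / 2) :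
    (sc θ)⁻¹ ^ (1 / θ) = kap θ * θ := by
  have hA := gA h0
  have hB := gB h1
  rw [sc_inv h0 h1, ← Real.rpow_mul (by positivity)]
  unfold kap
  have e : (1 / 2 : ℝ) * (1 / θ) = 1 / (2 * θ) := by
    field_simp
  rw [e]
  field_simp

theorem dens {θ : ℝ} (h0 : 0 < θ) (h1 : θ < 1 / 2) {y : ℝ} (hy : 0 < y) :
    (sc θ)⁻¹ * (w0 (1 / θ) ((sc θ)⁻¹ * y) / Zd (1 / θ)) = ff θ y := by
  have hs := sc_pos h0 h1
  have hsi : 0 < (sc θ)⁻¹ := inv_pos.2 hs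
  have hsg := sg_pos h0 h1
  have hZ := Zd_pos (1 / θ) (two_lt h0 h1)
  have hk := kap_pos h0 h1
  unfold w0 ff vf zf
  have e1 : -((sc θ)⁻¹ * y) ^ (1 / θ) = -(kap θ * θ * y ^ (1 / θ)) := by
    rw [Real.mul_rpow hsi.le hy.le, sc_inv_rpow h0 h1]
  rw [e1, Real.mul_rpow hsi.le hy.le]
  have e2 : (sc θ)⁻¹ * (sc θ)⁻¹ ^ (1 / θ - 2) / Zd (1 / θ) = kap θ * (1 / sg θ) := by
    have e3 : (sc θ)⁻¹ ^ (1 / θ - 2) = kap θ * θ * sc θ ^ 2 := by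
      rw [Real.rpow_sub hsi, sc_inv_rpow h0 h1, Real.rpow_two, inv_pow, div_inv_eq_mul]
    rw [e3]
    have e4 : (sc θ)⁻¹ * (kap θ * θ * sc θ ^ 2) = kap θ * θ * sc θ := by
      field_simp
    rw [e4]
    unfold sc
    field_simp
  calc (sc θ)⁻¹ * ((sc θ)⁻¹ ^ (1 / θ - 2) * y ^ (1 / θ - 2) *
        Real.exp (-(kap θ * θ * y ^ (1 / θ))) / Zd (1 / θ)) =
      ((sc θ)⁻¹ * (sc θ)⁻¹ ^ (1 / θ - 2) / Zd (1 / θ)) * (y ^ (1 / θ - 2) *
        Real.exp (-(kap θ * θ * y ^ (1 / θ)))) := by ring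
    _ = _ := by
      rw [e2]
      ring

theorem nu_eq (θ : ℝ) : nu θ = (muZ (1 / θ)).map (fun z => sc θ * z) := by
  unfold nu mu
  rw [Measure.map_map (by fun_prop) (by fun_prop)]
  congr 1
  funext z
  simp only [Function.comp, sc]
  ring

theorem me {θ : ℝ} (h0 : 0 < θ) (h1 : θ < 1 / 2) : MeasurableEmbedding (fun z : ℝ => sc θ * z) :=
  (Homeomorph.mulLeft₀ (sc θ) (sc_pos h0 h1).ne').measurableEmbedding

theorem integral_nu {θ : ℝ} (h0 : 0 < θ) (h1 : θ < 1 / 2) (H : ℝ → ℝ) :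
    ∫ y, H y ∂(nu θ) = ∫ y in Ioi (0 : ℝ), ff θ y * H y := by
  have hs0 := sc_pos h0 h1
  rw [nu_eq, (me h0 h1).integral_map, int_muZ _ (two_lt h0 h1)]
  have h2 := integral_comp_mul_left_Ioi
    (fun y => w0 (1 / θ) ((sc θ)⁻¹ * y) / Zd (1 / θ) * H y) 0 hs0
  rw [mul_zero, smul_eq_mul] at h2
  have h3 : ∫ z in Ioi (0 : ℝ), w0 (1 / θ) z / Zd (1 / θ) * H (sc θ * z) =
      ∫ z in Ioi (0 : ℝ), w0 (1 / θ) ((sc θ)⁻¹ * (sc θ * z)) / Zd (1 / θ) * H (sc θ * z) := by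
    refine integral_congr_ae (ae_of_all _ fun z => ?_)
    show w0 (1 / θ) z / Zd (1 / θ) * H (sc θ * z) =
      w0 (1 / θ) ((sc θ)⁻¹ * (sc θ * z)) / Zd (1 / θ) * H (sc θ * z)
    rw [inv_mul_cancel_left₀ hs0.ne']
  rw [h3, h2, ← integral_const_mul]
  refine setIntegral_congr_fun measurableSet_Ioi fun y hy => ?_
  have hy0 : 0 < y := hy
  show (sc θ)⁻¹ * (w0 (1 / θ) ((sc θ)⁻¹ * y) / Zd (1 / θ) * H y) = ff θ y * H y
  rw [← dens h0 h1 hy0]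
  ring

theorem integrable_nu {θ : ℝ} (h0 : 0 < θ) (h1 : θ < 1 / 2) (H : ℝ → ℝ) :
    Integrable H (nu θ) ↔ IntegrableOn (fun y => ff θ y * H y) (Ioi 0) := by
  have hs0 := sc_pos h0 h1
  have hq := two_lt h0 h1
  rw [nu_eq, (me h0 h1).integrable_map_iff]
  unfold muZ
  rw [integrable_withDensity_iff_integrable_smul' (dens_meas (1 / θ))
    (Eventually.of_forall fun _ => ENNReal.ofReal_lt_top)]
  have h2 := integrableOn_Ioi_comp_mul_left_iff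
    (fun y => w0 (1 / θ) ((sc θ)⁻¹ * y) / Zd (1 / θ) * H y) 0 hs0
  rw [mul_zero] at h2
  have h3 : IntegrableOn (fun y => ff θ y * H y) (Ioi 0) ↔
      IntegrableOn (fun y => w0 (1 / θ) ((sc θ)⁻¹ * y) / Zd (1 / θ) * H y) (Ioi 0) := by
    have e : ∀ y ∈ Ioi (0 : ℝ), ff θ y * H y =
        (sc θ)⁻¹ * (w0 (1 / θ) ((sc θ)⁻¹ * y) / Zd (1 / θ) * H y) := by
      intro y hy
      rw [← dens h0 h1 hy]
      ring
    rw [integrableOn_congr_fun (f := fun y => ff θ y * H y)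
      (g := fun y => (sc θ)⁻¹ * (w0 (1 / θ) ((sc θ)⁻¹ * y) / Zd (1 / θ) * H y)) e measurableSet_Ioi]
    exact integrable_const_mul_iff (isUnit_iff_ne_zero.2 (inv_pos.2 hs0).ne') _
  rw [h3, ← h2]
  refine integrableOn_congr_fun (fun z hz => ?_) measurableSet_Ioi
  have hz0 : (0 : ℝ) < z := hz
  show _ • _ = w0 (1 / θ) ((sc θ)⁻¹ * (sc θ * z)) / Zd (1 / θ) * H (sc θ * z)
  rw [inv_mul_cancel_left₀ hs0.ne', ENNReal.toReal_ofReal]
  · rfl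
  · exact div_nonneg (w0_nonneg _ z hz0.le) (Zd_pos _ hq).le

theorem zf_cont {θ : ℝ} (h0 : 0 < θ) : Continuous (zf θ) := by
  unfold zf
  have : Continuous fun z : ℝ => z ^ (1 / θ) := Real.continuous_rpow_const (by positivity)
  fun_prop

theorem zf_pos {θ : ℝ} (h0 : 0 < θ) (h1 : θ < 1 / 2) (y : ℝ) : 0 < zf θ y := by
  have := sg_pos h0 h1
  unfold zf
  positivity

theorem zf_le {θ : ℝ} (h0 : 0 < θ) (h1 : θ < 1 / 2) {y : ℝ} (hy : 0 ≤ y) :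
    zf θ y ≤ 1 / sg θ := by
  have hs := sg_pos h0 h1
  have hk := kap_pos h0 h1
  unfold zf
  have h2 : 0 ≤ kap θ * θ * y ^ (1 / θ) := by positivity
  calc 1 / sg θ * Real.exp (-(kap θ * θ * y ^ (1 / θ))) ≤ 1 / sg θ * 1 :=
        mul_le_mul_of_nonneg_left (Real.exp_le_one_iff.2 (by linarith)) (by positivity)
    _ = _ := mul_one _

theorem zf_deriv {θ : ℝ} (h0 : 0 < θ) {y : ℝ} (hy : 0 < y) :
    HasDerivAt (zf θ) (-(y * ff θ y)) y := by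
  have d1 : HasDerivAt (fun y : ℝ => y ^ (1 / θ)) (1 / θ * y ^ (1 / θ - 1)) y :=
    Real.hasDerivAt_rpow_const (Or.inl hy.ne')
  have d2 := ((d1.const_mul (kap θ * θ)).neg.exp).const_mul (1 / sg θ)
  refine d2.congr_deriv ?_
  have e : y ^ (1 / θ - 1) = y * y ^ (1 / θ - 2) := by
    rw [mul_comm, ← Real.rpow_add_one hy.ne']
    congr 1
    ring
  have e2 : (-fun y : ℝ => kap θ * θ * y ^ (1 / θ)) y = -(kap θ * θ * y ^ (1 / θ)) := rfl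
  rw [e2]
  unfold ff vf zf
  rw [e]
  field_simp

theorem ff_deriv {θ : ℝ} (h0 : 0 < θ) {y : ℝ} (hy : 0 < y) :
    HasDerivAt (ff θ) ((1 / θ - 2) * ff θ y / y - y * vf θ y * ff θ y) y := by
  have d1 : HasDerivAt (fun y : ℝ => y ^ (1 / θ - 2)) ((1 / θ - 2) * y ^ (1 / θ - 2 - 1)) y :=
    Real.hasDerivAt_rpow_const (Or.inl hy.ne')
  have d2 := (d1.const_mul (kap θ)).mul (zf_deriv h0 hy)
  refine d2.congr_deriv ?_
  have e : y ^ (1 / θ - 2 - 1) = y ^ (1 / θ - 2) / y := Real.rpow_sub_one hy.ne' _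
  rw [e]
  unfold ff vf
  ring

theorem zf_int {θ : ℝ} (h0 : 0 < θ) (h1 : θ < 1 / 2) {a : ℝ} (ha : -1 < a) :
    IntegrableOn (fun y => y ^ a * zf θ y) (Ioi 0) := by
  have hk := kap_pos h0 h1
  have h := integrableOn_rpow_mul_exp_neg_mul_rpow (p := 1 / θ) (s := a) (b := kap θ * θ) ha
    (by positivity) (by positivity)
  have h2 := h.const_mul (1 / sg θ)
  refine IntegrableOn.congr_fun h2 (fun y _ => ?_) measurableSet_Ioi
  show 1 / sg θ * (y ^ a * Real.exp (-(kap θ * θ) * y ^ (1 / θ))) = y ^ a * zf θ y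
  unfold zf
  rw [neg_mul]
  ring

theorem gD : Pool.Agent.Helper63.P705.NR.GD := by
  intro θ h0 h1
  exact ⟨kap_pos h0 h1, sg_pos h0 h1, zf_cont h0, fun y hy => ⟨zf_pos h0 h1 y, zf_le h0 h1 hy⟩,
    fun y hy => zf_deriv h0 hy, fun y hy => ff_deriv h0 hy, fun a ha => zf_int h0 h1 ha,
    fun H => ⟨integrable_nu h0 h1 H, integral_nu h0 h1 H⟩⟩

end Pool.Agent.Helper19.NR
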